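import Pool.Agent.H2.KM.Targets

/-!
# Row OPS: exchanges of places of a tensor of order `2n`, and its operator
-/

set_option autoImplicit false
set_option linter.unusedSectionVars false

open Matrix Pool.Agent.H2.NL Pool.Agent.H2.KM Pool.Agent.H64.CC

namespace Pool.Agent.H66.KM

variable {K : Type} [Field K] {I : Type}

private def zp (s : Matrix I I K) (u v : List I) : K := (List.zipWith (fun a b => s a b) u v).prod

private theorem zp_cons (s : Matrix I I K) (a b : I) (u v : List I) :
    zp s (a :: u) (b :: v) = s a b * zp s u v := by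
  simp [zp]

theorem ex_append_left {α : Type} : ∀ (j : ℕ) (u v : List α), j + 2 ≤ u.length →
    ex j (u ++ v) = ex j u ++ v
  | 0, a :: b :: l, v, _ => rfl
  | 0, [a], v, h => by simp at h
  | 0, [], v, h => by simp at h
  | j + 1, a :: l, v, h => by
    show a :: ex j (l ++ v) = a :: (ex j l ++ v)
    rw [ex_append_left j l v (by simp only [List.length_cons] at h; omega)]
  | _ + 1, [], v, h => by simp at h

theorem sgx_append_left (o : I → Bool) : ∀ (j : ℕ) (u v : List I), j + 2 ≤ u.length →
    sgx K o j (u ++ v) = sgx K o j u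
  | 0, a :: b :: l, v, _ => rfl
  | 0, [a], v, h => by simp at h
  | 0, [], v, h => by simp at h
  | j + 1, a :: l, v, h => by
    show sgx K o j (l ++ v) = sgx K o j l
    exact sgx_append_left o j l v (by simp only [List.length_cons] at h; omega)
  | _ + 1, [], v, h => by simp at h

theorem ex_append_right {α : Type} (i : ℕ) : ∀ (n : ℕ) (u v : List α), u.length = n →
    ex (n + i) (u ++ v) = u ++ ex i v
  | 0, u, v, h => by
    rw [List.length_eq_zero_iff] at h
    subst h
    rw [Nat.zero_add]
    rfl
  | n + 1, [], v, h => by simp at h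
  | n + 1, a :: u, v, h => by
    have h1 : n + 1 + i = (n + i) + 1 := by omega
    rw [h1]
    show a :: ex (n + i) (u ++ v) = a :: (u ++ ex i v)
    rw [ex_append_right i n u v (by simpa using h)]

theorem sgx_append_right (o : I → Bool) (i : ℕ) : ∀ (n : ℕ) (u v : List I), u.length = n →
    sgx K o (n + i) (u ++ v) = sgx K o i v
  | 0, u, v, h => by
    rw [List.length_eq_zero_iff] at h
    subst h
    rw [Nat.zero_add]
    rfl
  | n + 1, [], v, h => by simp at h
  | n + 1, a :: u, v, h => by
    have h1 : n + 1 + i = (n + i) + 1 := by omega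
    rw [h1]
    show sgx K o (n + i) (u ++ v) = sgx K o i v
    exact sgx_append_right o i n u v (by simpa using h)

theorem ex_reverse {α : Type} (j : ℕ) : ∀ (i : ℕ) (v : List α), i + j + 2 = v.length →
    (ex i v).reverse = ex j v.reverse
  | 0, a :: b :: l, h => by
    show (b :: a :: l).reverse = ex j (a :: b :: l).reverse
    have h1 : (a :: b :: l).reverse = l.reverse ++ [b, a] := by simp
    have h2 : (b :: a :: l).reverse = l.reverse ++ [a, b] := by simp
    rw [h1, h2]
    have h3 := ex_append_right 0 j l.reverse [b, a] (by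
      rw [List.length_reverse]
      simp only [List.length_cons] at h
      omega)
    rw [Nat.add_zero] at h3
    rw [h3]
    rfl
  | 0, [a], h => by simp at h
  | 0, [], h => by simp at h
  | i + 1, a :: l, h => by
    show (a :: ex i l).reverse = ex j (a :: l).reverse
    have hl : i + j + 2 = l.length := by
      simp only [List.length_cons] at h
      omega
    rw [List.reverse_cons, List.reverse_cons, ex_reverse j i l hl,
      ex_append_left j l.reverse [a] (by rw [List.length_reverse]; omega)]
  | i + 1, [], h => by simp at h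

theorem sgx_reverse (o : I → Bool) (j : ℕ) : ∀ (i : ℕ) (v : List I), i + j + 2 = v.length →
    sgx K o i v = sgx K o j v.reverse
  | 0, a :: b :: l, h => by
    have h1 : (a :: b :: l).reverse = l.reverse ++ [b, a] := by simp
    rw [h1]
    have h3 := sgx_append_right (K := K) o 0 j l.reverse [b, a] (by
      rw [List.length_reverse]
      simp only [List.length_cons] at h
      omega)
    rw [Nat.add_zero] at h3
    rw [h3]
    exact ks_comm (K := K) (o a) (o b)
  | 0, [a], h => by simp at h
  | 0, [], h => by simp at h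
  | i + 1, a :: l, h => by
    have hl : i + j + 2 = l.length := by
      simp only [List.length_cons] at h
      omega
    show sgx K o i l = sgx K o j (a :: l).reverse
    rw [List.reverse_cons, sgx_append_left o j l.reverse [a] (by rw [List.length_reverse]; omega)]
    exact sgx_reverse o j i l hl
  | i + 1, [], h => by simp at h

private theorem zp_ex (η : Matrix I I K) : ∀ (j : ℕ) (a b : List I), a.length = b.length →
    j + 2 ≤ a.length → zp η (ex j a) b = zp η a (ex j b)
  | 0, a1 :: a2 :: a, b1 :: b2 :: b, _, _ => by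
    show zp η (a2 :: a1 :: a) (b1 :: b2 :: b) = zp η (a1 :: a2 :: a) (b2 :: b1 :: b)
    rw [zp_cons, zp_cons, zp_cons, zp_cons]
    ring
  | 0, a1 :: a2 :: a, [b1], h, _ => by simp at h
  | 0, a1 :: a2 :: a, [], h, _ => by simp at h
  | 0, [a], _, _, h => by simp at h
  | 0, [], _, _, h => by simp at h
  | j + 1, a1 :: a, b1 :: b, h, h' => by
    show zp η (a1 :: ex j a) (b1 :: b) = zp η (a1 :: a) (b1 :: ex j b)
    rw [zp_cons, zp_cons, zp_ex η j a b (by simpa using h)
      (by simp only [List.length_cons] at h'; omega)]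
  | j + 1, a1 :: a, [], h, _ => by simp at h
  | j + 1, [], _, _, h => by simp at h

private theorem zp_sgx (η : Matrix I I K) (o : I → Bool) (hη : ∀ a b, η a b ≠ 0 → o a = o b) :
    ∀ (j : ℕ) (a b : List I), a.length = b.length → j + 2 ≤ a.length → zp η a b ≠ 0 →
    sgx K o j a = sgx K o j b
  | 0, a1 :: a2 :: a, b1 :: b2 :: b, _, _, hz => by
    rw [zp_cons, zp_cons] at hz
    show ks K (o a1) (o a2) = ks K (o b1) (o b2)
    rw [hη a1 b1 (left_ne_zero_of_mul hz),
      hη a2 b2 (left_ne_zero_of_mul (right_ne_zero_of_mul hz))]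
  | 0, a1 :: a2 :: a, [b1], h, _, _ => by simp at h
  | 0, a1 :: a2 :: a, [], h, _, _ => by simp at h
  | 0, [a], _, _, h, _ => by simp at h
  | 0, [], _, _, h, _ => by simp at h
  | j + 1, a1 :: a, b1 :: b, h, h', hz => by
    rw [zp_cons] at hz
    show sgx K o j a = sgx K o j b
    exact zp_sgx η o hη j a b (by simpa using h)
      (by simp only [List.length_cons] at h'; omega) (right_ne_zero_of_mul hz)
  | j + 1, a1 :: a, [], h, _, _ => by simp at h
  | j + 1, [], _, _, h, _ => by simp at h

private def exE (I : Type) (i n : ℕ) : List.Vector I n ≃ List.Vector I n where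
  toFun v := ⟨ex i v.1, by rw [ex_length]; exact v.2⟩
  invFun v := ⟨ex i v.1, by rw [ex_length]; exact v.2⟩
  left_inv v := Subtype.ext (ex_ex i v.1)
  right_inv v := Subtype.ext (ex_ex i v.1)

theorem pf_OPS : T_OPS := by
  intro K _ I _ _ o η hη n j t hj
  constructor
  · ext u u'
    rw [Matrix.mul_apply]
    refine Eq.trans ?_ (Finset.sum_eq_single (⟨ex j u.1, by rw [ex_length]; exact u.2⟩ :
      List.Vector I n) ?_ ?_).symm
    · show ∑ v : List.Vector I n, sw o j t (u.1 ++ v.1) * zp η v.1.reverse u'.1 =
        (if ex j u.1 = ex j u.1 then sgx K o j u.1 else 0) *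
          ∑ v : List.Vector I n, t (ex j u.1 ++ v.1) * zp η v.1.reverse u'.1
      rw [if_pos rfl, Finset.mul_sum]
      refine Finset.sum_congr rfl fun v _ => ?_
      rw [sw_eq, sgx_append_left o j u.1 v.1 (by rw [u.2]; exact hj),
        ex_append_left j u.1 v.1 (by rw [u.2]; exact hj), mul_assoc]
    · intro w _ hw
      show (if ex j u.1 = w.1 then sgx K o j u.1 else 0) * _ = 0
      rw [if_neg (fun h => hw (Subtype.ext h.symm)), zero_mul]
    · intro h
      exact absurd (Finset.mem_univ (α := List.Vector I n) _) h
  · obtain ⟨i, hi⟩ : ∃ i, n = i + j + 2 := ⟨n - 2 - j, by omega⟩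
    have h2n : 2 * n - 2 - j = n + i := by omega
    rw [h2n]
    ext u u'
    rw [Matrix.mul_apply]
    refine Eq.trans ?_ (Finset.sum_eq_single (⟨ex j u'.1, by rw [ex_length]; exact u'.2⟩ :
      List.Vector I n) ?_ ?_).symm
    · show ∑ v : List.Vector I n, sw o (n + i) t (u.1 ++ v.1) * zp η v.1.reverse u'.1 =
        (∑ v : List.Vector I n, t (u.1 ++ v.1) * zp η v.1.reverse (ex j u'.1)) *
          (if ex j (ex j u'.1) = u'.1 then sgx K o j (ex j u'.1) else 0)
      rw [if_pos (ex_ex j u'.1), sgx_ex, Finset.sum_mul]
      refine Fintype.sum_equiv (exE I i n) _ _ fun v => ?_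
      show sw o (n + i) t (u.1 ++ v.1) * zp η v.1.reverse u'.1 =
        t (u.1 ++ ex i v.1) * zp η (ex i v.1).reverse (ex j u'.1) * sgx K o j u'.1
      have hv : i + j + 2 = v.1.length := by rw [v.2, hi]
      rw [sw_eq, sgx_append_right o i n u.1 v.1 u.2, ex_append_right i n u.1 v.1 u.2,
        ex_reverse j i v.1 hv,
        zp_ex η j v.1.reverse (ex j u'.1) (by rw [List.length_reverse, v.2, ex_length, u'.2])
          (by rw [List.length_reverse]; omega), ex_ex]
      by_cases hz : zp η v.1.reverse u'.1 = 0
      · rw [hz]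
        ring
      · rw [sgx_reverse o j i v.1 hv, zp_sgx η o hη j v.1.reverse u'.1
          (by rw [List.length_reverse, v.2, u'.2]) (by rw [List.length_reverse]; omega) hz]
        ring
    · intro w _ hw
      show _ * (if ex j w.1 = u'.1 then sgx K o j w.1 else 0) = 0
      rw [if_neg, mul_zero]
      intro h
      apply hw
      apply Subtype.ext
      show w.1 = ex j u'.1
      rw [← h, ex_ex]
    · intro h
      exact absurd (Finset.mem_univ (α := List.Vector I n) _) h

end Pool.Agent.H66.KM
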